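import Pool.Agent.helper12.DD.Spec2

/-!
# Project dw: module TOM: central characters of the group `T → G`
-/

set_option autoImplicit false

open Pool.Agent.helper49.Blk

namespace Pool.Agent.DD

theorem TOM_conj {G T : Type} [Group G] (g x : T → G) :
    IsConj g x ↔ ∀ t, IsConj (g t) (x t) := by
  simp only [isConj_iff]
  constructor
  · rintro ⟨c, hc⟩ t
    exact ⟨c t, congrFun hc t⟩
  · intro h
    choose c hc using h
    exact ⟨c, funext hc⟩

theorem TOM_card {G T : Type} [Group G] [Fintype T] (g : T → G) :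
    Nat.card (conjugatesOf g) = ∏ t, Nat.card (conjugatesOf (g t)) := by
  have e : conjugatesOf g ≃ ∀ t, conjugatesOf (g t) :=
    { toFun := fun x t => ⟨x.1 t, (TOM_conj g x.1).1 x.2 t⟩
      invFun := fun y => ⟨fun t => (y t).1, (TOM_conj g _).2 fun t => (y t).2⟩
      left_inv := fun x => rfl
      right_inv := fun y => rfl }
  rw [Nat.card_congr e, Nat.card_pi]

theorem TOM_sum {G T : Type} [Group G] [Finite G] [Fintype T] (g : T → G)
    (N : T → Subgroup G) (ψ : ∀ t, N t → ℂ) :
    (∑ᶠ x ∈ {x : ↥(Subgroup.pi Set.univ N) | IsConj g (x : T → G)}, tps N ψ x) =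
      ∏ t, ∑ᶠ x ∈ {x : N t | IsConj (g t) (x : G)}, ψ t x := by
  classical
  have := Fintype.ofFinite ↥(Subgroup.pi Set.univ N)
  have := fun t => Fintype.ofFinite ↥(N t)
  have h1 : ∀ t, (∑ᶠ x ∈ {x : N t | IsConj (g t) (x : G)}, ψ t x) =
      ∑ x : N t, Set.indicator {x : N t | IsConj (g t) (x : G)} (ψ t) x := by
    intro t
    rw [finsum_mem_def, finsum_eq_sum_of_fintype]
  rw [finsum_mem_def, finsum_eq_sum_of_fintype, Finset.prod_congr rfl fun t _ => h1 t,
    Finset.prod_univ_sum, Fintype.piFinset_univ]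
  refine Fintype.sum_equiv
    { toFun := fun x t => ⟨x.1 t, x.2 t (Set.mem_univ t)⟩
      invFun := fun y => ⟨fun t => (y t).1, fun t _ => (y t).2⟩
      left_inv := fun x => rfl
      right_inv := fun y => rfl } _ _ fun x => ?_
  have h := TOM_conj g x.1
  by_cases hx : IsConj g x.1
  · have h2 : x ∈ {x : ↥(Subgroup.pi Set.univ N) | IsConj g (x : T → G)} := hx
    rw [Set.indicator_of_mem h2]
    unfold tps
    refine Finset.prod_congr rfl fun t _ => ?_
    have h3 : (⟨x.1 t, x.2 t (Set.mem_univ t)⟩ : N t) ∈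
        {x : N t | IsConj (g t) (x : G)} := h.1 hx t
    exact (Set.indicator_of_mem h3 _).symm
  · have h2 : x ∉ {x : ↥(Subgroup.pi Set.univ N) | IsConj g (x : T → G)} := hx
    rw [Set.indicator_of_notMem h2]
    rw [h] at hx
    push Not at hx
    obtain ⟨t, ht⟩ := hx
    symm
    refine Finset.prod_eq_zero (Finset.mem_univ t) ?_
    have h3 : (⟨x.1 t, x.2 t (Set.mem_univ t)⟩ : N t) ∉
        {x : N t | IsConj (g t) (x : G)} := ht
    exact Set.indicator_of_notMem h3 _

theorem TOM : TOM_stmt := by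
  intro G T _ _ _ g
  refine ⟨fun χ => ?_, fun N ψ => ?_⟩
  · unfold omega
    rw [TOM_card, Nat.cast_prod]
    have h1 : tpow T χ g = ∏ t, χ (g t) := rfl
    have h2 : tpow T χ 1 = ∏ _t : T, χ 1 := rfl
    rw [h1, h2, ← Finset.prod_mul_distrib, ← Finset.prod_div_distrib]
  · unfold omInd
    rw [TOM_sum]
    have h2 : tps N ψ 1 = ∏ t, ψ t 1 := rfl
    rw [h2, ← Finset.prod_div_distrib]

end Pool.Agent.DD
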